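import Mathlib

namespace Pool.Agent.Results.MP_d93447_an.FewIntersections

open Set Filter Topology MeasureTheory

/-- projection to `[0,1]` -/
noncomputable def cl (t : ℝ) : ℝ := max 0 (min t 1)

lemma cl_of_nonpos {t : ℝ} (h : t ≤ 0) : cl t = 0 := by
  unfold cl
  rw [max_eq_left]
  exact (min_le_left _ _).trans h

lemma cl_of_one_le {t : ℝ} (h : 1 ≤ t) : cl t = 1 := by
  unfold cl
  rw [min_eq_right h]
  norm_num

lemma cl_of_mem {t : ℝ} (h : t ∈ Icc (0 : ℝ) 1) : cl t = t := by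
  unfold cl
  rw [min_eq_left h.2, max_eq_right h.1]

lemma cl_mem (t : ℝ) : cl t ∈ Icc (0 : ℝ) 1 := by
  unfold cl
  constructor
  · exact le_max_left _ _
  · exact max_le (by norm_num) (min_le_right _ _)

lemma continuous_cl : Continuous cl := by
  unfold cl
  fun_prop

lemma abs_cl_sub (s t : ℝ) : |cl s - cl t| ≤ |s - t| := by
  unfold cl
  refine (abs_max_sub_max_le_max 0 _ 0 _).trans ?_
  rw [sub_self, abs_zero]
  refine max_le (abs_nonneg _) ?_
  refine (abs_min_sub_min_le_max s 1 t 1).trans ?_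
  rw [sub_self, abs_zero]
  exact max_le le_rfl (abs_nonneg _)

lemma monotone_cl : Monotone cl := by
  intro s t h
  unfold cl
  exact max_le_max le_rfl (min_le_min h le_rfl)

lemma hasDerivAt_cl {f f' : ℝ → ℝ} (hf : ∀ t, HasDerivAt f (f' t) t) (h0 : f' 0 = 0)
    (h1 : f' 1 = 0) (t : ℝ) : HasDerivAt (fun t => f (cl t)) (f' (cl t)) t := by
  by_cases h : f' (cl t) = 0
  · rw [h, hasDerivAt_iff_isLittleO]
    have h2 := hf (cl t)
    rw [h, hasDerivAt_iff_isLittleO] at h2
    simp only [smul_zero, sub_zero] at h2 ⊢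
    have h3 := h2.comp_tendsto (continuous_cl.tendsto t)
    refine h3.trans_isBigO ?_
    apply Asymptotics.IsBigO.of_bound 1
    filter_upwards with s
    simpa using abs_cl_sub s t
  · have ht0 : 0 < t := by
      by_contra hc
      rw [cl_of_nonpos (not_lt.1 hc)] at h
      exact h h0
    have ht1 : t < 1 := by
      by_contra hc
      rw [cl_of_one_le (not_lt.1 hc)] at h
      exact h h1
    have h4 : (fun t => f (cl t)) =ᶠ[𝓝 t] f := by
      filter_upwards [Ioo_mem_nhds ht0 ht1] with s hs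
      rw [cl_of_mem ⟨hs.1.le, hs.2.le⟩]
    rw [cl_of_mem ⟨ht0.le, ht1.le⟩]
    exact (hf t).congr_of_eventuallyEq h4

/-- The step function, its derivative and second derivative. -/
noncomputable def q0 (t : ℝ) : ℝ := 16 * (t ^ 3 / 3 - t ^ 4 / 2 + t ^ 5 / 5)
noncomputable def q1 (t : ℝ) : ℝ := 16 * (t ^ 2 * (1 - t) ^ 2)
noncomputable def q2 (t : ℝ) : ℝ := 32 * (t * (1 - t) * (1 - 2 * t))

lemma hasDerivAt_q0 (t : ℝ) : HasDerivAt q0 (q1 t) t := by
  have h := ((((hasDerivAt_pow 3 t).div_const 3).sub ((hasDerivAt_pow 4 t).div_const 2)).add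
    ((hasDerivAt_pow 5 t).div_const 5)).const_mul 16
  refine h.congr_deriv ?_
  unfold q1
  push_cast
  ring

lemma hasDerivAt_q1 (t : ℝ) : HasDerivAt q1 (q2 t) t := by
  have h1 : HasDerivAt (fun t : ℝ => (1 - t) ^ 2) (2 * (1 - t) * (-1)) t := by
    have := ((hasDerivAt_id t).const_sub 1).pow 2
    refine this.congr_deriv ?_
    simp
  have h := ((hasDerivAt_pow 2 t).mul h1).const_mul 16
  refine h.congr_deriv ?_
  unfold q2
  push_cast
  ring

noncomputable def s0 (t : ℝ) : ℝ := q0 (cl t)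
noncomputable def s1 (t : ℝ) : ℝ := q1 (cl t)
noncomputable def s2 (t : ℝ) : ℝ := q2 (cl t)

lemma hasDerivAt_s0 (t : ℝ) : HasDerivAt s0 (s1 t) t :=
  hasDerivAt_cl hasDerivAt_q0 (by simp [q1]) (by simp [q1]) t

lemma hasDerivAt_s1 (t : ℝ) : HasDerivAt s1 (s2 t) t :=
  hasDerivAt_cl hasDerivAt_q1 (by simp [q2]) (by simp [q2]) t

lemma continuous_s2 : Continuous s2 := by
  unfold s2 q2
  have := continuous_cl
  fun_prop

lemma s1_eq_zero {t : ℝ} (h : t ≤ 0 ∨ 1 ≤ t) : s1 t = 0 := by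
  unfold s1
  rcases h with h | h
  · rw [cl_of_nonpos h]; simp [q1]
  · rw [cl_of_one_le h]; simp [q1]

lemma s1_nonneg (t : ℝ) : 0 ≤ s1 t := by
  unfold s1 q1
  positivity

lemma s1_le (t : ℝ) : s1 t ≤ 1 := by
  unfold s1 q1
  obtain ⟨h0, h1⟩ := cl_mem t
  set c := cl t
  have h2 : 0 ≤ c * (1 - c) := mul_nonneg h0 (by linarith)
  have h3 : c * (1 - c) ≤ 1 / 4 := by nlinarith [sq_nonneg (2 * c - 1)]
  have h4 : (c * (1 - c)) ^ 2 ≤ (1 / 4) ^ 2 := pow_le_pow_left₀ h2 h3 2
  nlinarith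

lemma monotone_s0 : Monotone s0 :=
  monotone_of_deriv_nonneg (fun t => (hasDerivAt_s0 t).differentiableAt)
    fun t => by rw [(hasDerivAt_s0 t).deriv]; exact s1_nonneg t

lemma s0_nonneg (t : ℝ) : 0 ≤ s0 t := by
  have h := monotone_s0 (min_le_left t 0)
  have : s0 (min t 0) = 0 := by
    unfold s0
    rw [cl_of_nonpos (min_le_right _ _)]
    simp [q0]
  linarith

lemma s0_le (t : ℝ) : s0 t ≤ 1 := by
  have h := monotone_s0 (le_max_left t 1)
  have : s0 (max t 1) = 8 / 15 := by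
    unfold s0
    rw [cl_of_one_le (le_max_right _ _)]
    norm_num [q0]
  linarith

section construction

variable (P : ℕ) (w : ℝ)

/-- The function and its derivatives. -/
noncomputable def y0 (x : ℝ) : ℝ :=
  x + x ^ 2 / 2 - ∑ k ∈ Finset.range P, w * s0 ((x - k / P) / w)
noncomputable def y1 (x : ℝ) : ℝ := 1 + x - ∑ k ∈ Finset.range P, s1 ((x - k / P) / w)
noncomputable def y2 (x : ℝ) : ℝ := 1 - ∑ k ∈ Finset.range P, s2 ((x - k / P) / w) / w

variable {P w}

lemma hasDerivAt_y0 (hw : 0 < w) (x : ℝ) : HasDerivAt (y0 P w) (y1 P w x) x := by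
  unfold y0
  refine HasDerivAt.sub ?_ (HasDerivAt.fun_sum fun k _ => ?_)
  · refine ((hasDerivAt_id x).add ((hasDerivAt_pow 2 x).div_const 2)).congr_deriv ?_
    push_cast
    ring
  · have h1 : HasDerivAt (fun x : ℝ => (x - k / P) / w) (1 / w) x :=
      ((hasDerivAt_id x).sub_const _).div_const w
    refine (((hasDerivAt_s0 _).comp x h1).const_mul w).congr_deriv ?_
    field_simp

lemma hasDerivAt_y1 (x : ℝ) : HasDerivAt (y1 P w) (y2 P w x) x := by
  unfold y1
  refine HasDerivAt.sub ?_ (HasDerivAt.fun_sum fun k _ => ?_)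
  · exact (hasDerivAt_id x).const_add 1
  · have h1 : HasDerivAt (fun x : ℝ => (x - k / P) / w) (1 / w) x :=
      ((hasDerivAt_id x).sub_const _).div_const w
    refine ((hasDerivAt_s1 _).comp x h1).congr_deriv ?_
    ring

lemma continuous_y2 : Continuous (y2 P w) := by
  unfold y2
  have := continuous_s2
  fun_prop

lemma deriv_y0 (hw : 0 < w) : deriv (y0 P w) = y1 P w := by
  funext x
  exact (hasDerivAt_y0 hw x).deriv

lemma deriv_y1 : deriv (y1 P w) = y2 P w := by
  funext x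
  exact (hasDerivAt_y1 x).deriv

lemma contDiff_y0 (hw : 0 < w) : ContDiff ℝ 2 (y0 P w) := by
  have h1 : ContDiff ℝ 1 (y1 P w) := by
    rw [contDiff_one_iff_deriv, deriv_y1]
    exact ⟨fun x => (hasDerivAt_y1 x).differentiableAt, continuous_y2⟩
  have : (2 : WithTop ℕ∞) = 1 + 1 := by norm_num
  rw [this, contDiff_succ_iff_deriv]
  refine ⟨fun x => (hasDerivAt_y0 hw x).differentiableAt, by simp, ?_⟩
  rw [deriv_y0 hw]
  exact h1

/-- At most one dip is active. -/
lemma sum_s1 (hP : 0 < P) (hw : 0 < w) (hwP : w ≤ 1 / P) {k : ℕ} (hk : k < P) {x : ℝ}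
    (h1 : (k : ℝ) / P ≤ x) (h2 : x ≤ (k + 1) / P) :
    ∑ j ∈ Finset.range P, s1 ((x - j / P) / w) = s1 ((x - k / P) / w) := by
  have hP' : (0 : ℝ) < P := by exact_mod_cast hP
  rw [Finset.sum_eq_single k]
  · intro j _ hj
    apply s1_eq_zero
    rcases lt_or_gt_of_ne hj with h | h
    · right
      rw [le_div_iff₀ hw, one_mul]
      refine hwP.trans ?_
      have h3 : (j : ℝ) + 1 ≤ k := by exact_mod_cast h
      have h4 : ((j : ℝ) + 1) / P ≤ k / P := by gcongr
      rw [add_div] at h4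
      linarith
    · left
      apply div_nonpos_of_nonpos_of_nonneg _ hw.le
      have h3 : (k : ℝ) + 1 ≤ j := by exact_mod_cast h
      have h4 : ((k : ℝ) + 1) / P ≤ j / P := by gcongr
      linarith
  · intro h
    exact absurd (Finset.mem_range.2 hk) h

lemma exists_cell (hP : 0 < P) {x : ℝ} (hx : x ∈ Icc (0 : ℝ) 1) :
    ∃ k, k < P ∧ (k : ℝ) / P ≤ x ∧ x ≤ (k + 1) / P := by
  have hP' : (0 : ℝ) < P := by exact_mod_cast hP
  rcases eq_or_lt_of_le hx.2 with h | h
  · refine ⟨P - 1, by omega, ?_, ?_⟩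
    · rw [h, div_le_one hP']
      exact_mod_cast Nat.sub_le _ _
    · rw [h, le_div_iff₀ hP', one_mul]
      have : ((P - 1 : ℕ) : ℝ) = P - 1 := by
        rw [Nat.cast_sub hP]
        norm_num
      rw [this]
      linarith
  · have hf0 : 0 ≤ x * P := mul_nonneg hx.1 hP'.le
    refine ⟨⌊x * P⌋₊, ?_, ?_, ?_⟩
    · rw [Nat.floor_lt hf0]
      nlinarith
    · rw [div_le_iff₀ hP']
      exact Nat.floor_le hf0
    · rw [le_div_iff₀ hP']
      exact (Nat.lt_floor_add_one _).le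

lemma sum_s1_mem (hP : 0 < P) (hw : 0 < w) (hwP : w ≤ 1 / P) {x : ℝ} (hx : x ∈ Icc (0 : ℝ) 1) :
    0 ≤ ∑ j ∈ Finset.range P, s1 ((x - j / P) / w) ∧
      ∑ j ∈ Finset.range P, s1 ((x - j / P) / w) ≤ 1 := by
  obtain ⟨k, hk, h1, h2⟩ := exists_cell hP hx
  rw [sum_s1 hP hw hwP hk h1 h2]
  exact ⟨s1_nonneg _, s1_le _⟩

lemma S_nonneg (hw : 0 < w) (x : ℝ) :
    0 ≤ ∑ k ∈ Finset.range P, w * s0 ((x - k / P) / w) :=
  Finset.sum_nonneg fun _ _ => mul_nonneg hw.le (s0_nonneg _)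

lemma S_le (hw : 0 < w) (x : ℝ) :
    ∑ k ∈ Finset.range P, w * s0 ((x - k / P) / w) ≤ P * w := by
  refine (Finset.sum_le_sum fun k _ => mul_le_mul_of_nonneg_left (s0_le _) hw.le).trans ?_
  rw [Finset.sum_const, Finset.card_range, nsmul_eq_mul, mul_one]

/-- The total variation of the derivative. -/
lemma variation (hP : 0 < P) (hw : 0 < w) (hwP : w ≤ 1 / P) (hw1 : w ≤ 1) :
    (P : ℝ) / 2 ≤ ∫ x in (0 : ℝ)..1, |y2 P w x| := by
  have hP' : (0 : ℝ) < P := by exact_mod_cast hP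
  have hint : ∀ a b : ℝ, IntervalIntegrable (fun x => |y2 P w x|) volume a b := fun a b =>
    (continuous_y2.abs).intervalIntegrable a b
  have h1 := intervalIntegral.sum_integral_adjacent_intervals (μ := volume)
    (f := fun x => |y2 P w x|) (a := fun k : ℕ => (k : ℝ) / P) (n := P) (fun k _ => hint _ _)
  have e0 : ((0 : ℕ) : ℝ) / P = 0 := by simp
  have e1 : (P : ℝ) / P = 1 := div_self hP'.ne'
  rw [e0, e1] at h1
  rw [← h1]
  have h2 : ∀ k ∈ Finset.range P, (1 : ℝ) / 2 ≤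
      ∫ x in ((k : ℝ) / P)..(((k + 1 : ℕ) : ℝ) / P), |y2 P w x| := by
    intro k hk
    have hk' := Finset.mem_range.1 hk
    have hle : (k : ℝ) / P + w / 2 ≤ ((k + 1 : ℕ) : ℝ) / P := by
      push_cast
      rw [add_div]
      linarith
    have hadd := intervalIntegral.integral_add_adjacent_intervals (hint ((k : ℝ) / P)
      ((k : ℝ) / P + w / 2)) (hint ((k : ℝ) / P + w / 2) (((k + 1 : ℕ) : ℝ) / P))
    rw [← hadd]
    have hnn : 0 ≤ ∫ x in ((k : ℝ) / P + w / 2)..(((k + 1 : ℕ) : ℝ) / P), |y2 P w x| :=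
      intervalIntegral.integral_nonneg hle fun x _ => abs_nonneg _
    have h3 : |∫ x in ((k : ℝ) / P)..((k : ℝ) / P + w / 2), y2 P w x| ≤
        ∫ x in ((k : ℝ) / P)..((k : ℝ) / P + w / 2), |y2 P w x| :=
      intervalIntegral.abs_integral_le_integral_abs (by linarith)
    have h4 : ∫ x in ((k : ℝ) / P)..((k : ℝ) / P + w / 2), y2 P w x =
        y1 P w ((k : ℝ) / P + w / 2) - y1 P w ((k : ℝ) / P) :=
      intervalIntegral.integral_eq_sub_of_hasDerivAt (fun x _ => hasDerivAt_y1 x)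
        (continuous_y2.intervalIntegrable _ _)
    have h5 : y1 P w ((k : ℝ) / P + w / 2) = 1 + ((k : ℝ) / P + w / 2) - 1 := by
      unfold y1
      rw [sum_s1 hP hw hwP hk' (by linarith) (by push_cast at hle; exact hle)]
      have : ((k : ℝ) / P + w / 2 - k / P) / w = 1 / 2 := by
        field_simp
        ring
      rw [this]
      unfold s1
      rw [cl_of_mem (by constructor <;> norm_num)]
      norm_num [q1]
    have h6 : y1 P w ((k : ℝ) / P) = 1 + (k : ℝ) / P := by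
      unfold y1
      rw [sum_s1 hP hw hwP hk' le_rfl (by gcongr; linarith)]
      have : ((k : ℝ) / P - k / P) / w = 0 := by simp
      rw [this, s1_eq_zero (Or.inl le_rfl), sub_zero]
    have h7 : (1 : ℝ) / 2 ≤ |y1 P w ((k : ℝ) / P + w / 2) - y1 P w ((k : ℝ) / P)| := by
      rw [h5, h6]
      have : 1 + ((k : ℝ) / P + w / 2) - 1 - (1 + (k : ℝ) / P) = -(1 - w / 2) := by ring
      rw [this, abs_neg, abs_of_nonneg (by linarith)]
      linarith
    rw [h4] at h3
    linarith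
  calc (P : ℝ) / 2 = ∑ _k ∈ Finset.range P, (1 : ℝ) / 2 := by
        rw [Finset.sum_const, Finset.card_range, nsmul_eq_mul]
        ring
    _ ≤ _ := Finset.sum_le_sum h2

lemma mean_value (hw : 0 < w) {a b u v : ℝ} (huv : u < v) (hu : y0 P w u = a + b * u)
    (hv : y0 P w v = a + b * v) : ∃ c ∈ Ioo u v, y1 P w c = b := by
  obtain ⟨c, hc, h⟩ := exists_hasDerivAt_eq_slope (y0 P w) (y1 P w) huv
    (fun x _ => (hasDerivAt_y0 hw x).continuousAt.continuousWithinAt)
    (fun x _ => hasDerivAt_y0 hw x)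
  refine ⟨c, hc, ?_⟩
  rw [h, hu, hv]
  have : v - u ≠ 0 := sub_ne_zero.2 huv.ne'
  field_simp
  ring

lemma few (hP : 0 < P) (hw : 0 < w) (hwP : w ≤ 1 / (4 * P)) (hsm : 2 * (P * w) ≤ (1 / (4 * P)) ^ 2)
    (a b : ℝ) (s : Finset ℝ) (hs : ∀ x ∈ s, x ∈ Icc (0 : ℝ) 1 ∧ y0 P w x = a + b * x) :
    s.card ≤ 6 := by
  by_contra hcard
  push Not at hcard
  have hP' : (0 : ℝ) < P := by exact_mod_cast hP
  have h4P : 1 / (4 * (P : ℝ)) = (1 / P) / 4 := by field_simp
  have hP1 : (0 : ℝ) < 1 / P := by positivity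
  obtain ⟨t, hts, ht⟩ := Finset.exists_subset_card_eq (show 7 ≤ s.card from hcard)
  obtain ⟨z, hz⟩ : ∃ z : Fin 7 ↪o ℝ, ∀ i, z i ∈ s :=
    ⟨t.orderEmbOfFin ht, fun i => hts (Finset.orderEmbOfFin_mem t ht i)⟩
  have hzI : ∀ i, z i ∈ Icc (0 : ℝ) 1 := fun i => (hs _ (hz i)).1
  have hzy : ∀ i, y0 P w (z i) = a + b * z i := fun i => (hs _ (hz i)).2
  have hwP' : w ≤ 1 / P := by linarith
  -- step 1
  have h1 : b - 1 ≤ z 1 := by
    by_contra hc
    push Not at hc
    obtain ⟨c, hc1, hc2⟩ := mean_value hw (z.strictMono (show (0 : Fin 7) < 1 by decide))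
      (hzy 0) (hzy 1)
    have h2 := (sum_s1_mem hP hw hwP' (x := c) ⟨(hzI 0).1.trans hc1.1.le,
      hc1.2.le.trans (hzI 1).2⟩).1
    unfold y1 at hc2
    linarith [hc1.2]
  -- step 2
  have h2 : z 6 - z 1 ≤ 1 / (4 * P) := by
    have e6 := hzy 6
    have e1 := hzy 1
    unfold y0 at e6 e1
    have hS6 := S_le (P := P) hw (z 6)
    have hS1 := S_nonneg (P := P) hw (z 1)
    have hlt : z 1 < z 6 := z.strictMono (by decide)
    have h3 : (z 6 - z 1) ^ 2 ≤ 2 * (P * w) := by
      nlinarith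
    exact le_of_sq_le_sq (h3.trans hsm) (by positivity)
  -- step 3
  have h3 : ∀ i : Fin 5, ∃ c ∈ Ioo (z i.succ.castSucc) (z i.succ.succ), y1 P w c = b := by
    intro i
    exact mean_value hw (z.strictMono (Fin.castSucc_lt_succ)) (hzy _) (hzy _)
  choose c hc1 hc2 using h3
  have hlow : ∀ i : Fin 5, z 1 < c i := fun i =>
    lt_of_le_of_lt (z.monotone (by
      rw [Fin.le_def]
      simp)) (hc1 i).1
  have hup : ∀ i : Fin 5, c i < z 6 := fun i =>
    lt_of_lt_of_le (hc1 i).2 (z.monotone (Fin.le_last _))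
  have hcI : ∀ i, c i ∈ Icc (0 : ℝ) 1 := fun i =>
    ⟨(hzI 1).1.trans (hlow i).le, (hup i).le.trans (hzI 6).2⟩
  have hmono : StrictMono c := by
    intro i j hij
    refine (hc1 i).2.trans_le ((z.monotone ?_).trans (hc1 j).1.le)
    rw [Fin.le_def]
    rw [Fin.lt_def] at hij
    simp only [Fin.val_succ, Fin.val_castSucc]
    omega
  choose k hk hk1 hk2 using fun i => exists_cell hP (hcI i)
  have hsum : ∀ i, s1 ((c i - k i / P) / w) = c i - (b - 1) := by
    intro i
    rw [← sum_s1 hP hw hwP' (hk i) (hk1 i) (hk2 i)]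
    have := hc2 i
    unfold y1 at this
    linarith
  have hτ : ∀ i, 0 < (c i - k i / P) / w ∧ (c i - k i / P) / w < 1 := by
    intro i
    have h5 := hsum i
    have h6 := hlow i
    constructor
    · by_contra hn
      rw [s1_eq_zero (Or.inl (not_lt.1 hn))] at h5
      linarith
    · by_contra hn
      rw [s1_eq_zero (Or.inr (not_lt.1 hn))] at h5
      linarith
  have hkeq : ∀ i j, k i ≤ k j → k i = k j := by
    intro i j hij
    by_contra hne
    have h7 : (k i : ℝ) + 1 ≤ k j := by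
      exact_mod_cast (lt_of_le_of_ne hij hne)
    have h8 : ((k i : ℝ) + 1) / P ≤ k j / P := by gcongr
    rw [add_div] at h8
    have h9 : c i < k i / P + w := by
      have := (hτ i).2
      rw [div_lt_one hw] at this
      linarith
    have h10 : (k j : ℝ) / P < c j := by
      have := (hτ j).1
      have := (div_pos_iff_of_pos_right hw).1 this
      linarith
    have h11 := hlow i
    have h12 := hup j
    linarith
  have hkk : ∀ i, k i = k 0 := fun i => by
    rcases le_total (k i) (k 0) with h | h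
    · exact hkeq i 0 h
    · exact (hkeq 0 i h).symm
  -- the polynomial
  set T : Polynomial ℝ := Polynomial.C (1 / w) * (Polynomial.X - Polynomial.C ((k 0 : ℝ) / P))
    with hT
  set R : Polynomial ℝ := Polynomial.C 16 * (T ^ 2 * (1 - T) ^ 2) -
    (Polynomial.X - Polynomial.C (b - 1)) with hR
  have hTe : ∀ x, T.eval x = (x - k 0 / P) / w := by
    intro x
    rw [hT]
    simp only [Polynomial.eval_mul, Polynomial.eval_sub, Polynomial.eval_C, Polynomial.eval_X]
    ring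
  have hRe : ∀ x, R.eval x = 16 * (((x - k 0 / P) / w) ^ 2 * (1 - (x - k 0 / P) / w) ^ 2) -
      (x - (b - 1)) := by
    intro x
    rw [hR]
    simp only [Polynomial.eval_mul, Polynomial.eval_sub, Polynomial.eval_C, Polynomial.eval_X,
      Polynomial.eval_pow, Polynomial.eval_one, hTe]
  have hR0 : R ≠ 0 := by
    intro h0
    have e1 := hRe (k 0 / P)
    have e2 := hRe (k 0 / P + w)
    rw [h0, Polynomial.eval_zero] at e1 e2
    have e3 : ((k 0 : ℝ) / P + w - k 0 / P) / w = 1 := by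
      field_simp
      ring
    rw [e3] at e2
    have e4 : ((k 0 : ℝ) / P - k 0 / P) / w = 0 := by simp
    rw [e4] at e1
    linarith
  have hdeg : R.natDegree ≤ 4 := by
    rw [hR, hT]
    compute_degree
  have hroot : (Finset.univ.image c).val ⊆ R.roots := by
    intro x hx
    rw [Finset.mem_val, Finset.mem_image] at hx
    obtain ⟨i, -, rfl⟩ := hx
    rw [Polynomial.mem_roots hR0, Polynomial.IsRoot.def, hRe]
    have h13 := hsum i
    have h14 := hτ i
    rw [hkk i] at h13 h14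
    unfold s1 q1 at h13
    rw [cl_of_mem ⟨h14.1.le, h14.2.le⟩] at h13
    linarith
  have h15 := Polynomial.card_le_degree_of_subset_roots hroot
  rw [Finset.card_image_of_injective _ hmono.injective, Finset.card_univ, Fintype.card_fin] at h15
  omega

end construction

/-- **Q1 is false**, already for `M = 2` and `N = 7`. -/
theorem result : ∃ M N : ℕ, 0 < M ∧ 0 < N ∧ ∀ K : ℝ, ∃ y : ℝ → ℝ, ContDiff ℝ 2 y ∧
    (∀ x ∈ Icc (0 : ℝ) 1, |y x| ≤ M ∧ |deriv y x| ≤ M) ∧
    K ≤ ∫ x in (0 : ℝ)..1, |deriv (deriv y) x| ∧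
    ∀ a b : ℝ, ∀ s : Finset ℝ, (∀ x ∈ s, x ∈ Icc (0 : ℝ) 1 ∧ y x = a + b * x) →
      s.card ≤ N - 1 := by
  refine ⟨2, 7, by norm_num, by norm_num, fun K => ?_⟩
  obtain ⟨P, hPK⟩ := exists_nat_gt (max 1 (2 * K))
  have hP1 : (1 : ℝ) < P := (le_max_left _ _).trans_lt hPK
  have hPK' : 2 * K < P := (le_max_right _ _).trans_lt hPK
  have hP : 0 < P := by
    have : (0 : ℝ) < P := by linarith
    exact_mod_cast this
  have hP' : (0 : ℝ) < P := by linarith
  obtain ⟨w, hwdef⟩ : ∃ w : ℝ, w = 1 / (32 * (P : ℝ) ^ 3) := ⟨_, rfl⟩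
  have hw : 0 < w := by rw [hwdef]; positivity
  have hsm : 2 * (P * w) ≤ (1 / (4 * (P : ℝ))) ^ 2 := by
    rw [hwdef]
    apply le_of_eq
    field_simp
    norm_num
  have hw4 : w ≤ 1 / (4 * (P : ℝ)) := by
    rw [hwdef]
    apply one_div_le_one_div_of_le (by positivity)
    nlinarith [sq_nonneg (P : ℝ), mul_pos hP' hP']
  have h14 : 1 / (4 * (P : ℝ)) ≤ 1 / 4 := by
    apply one_div_le_one_div_of_le (by norm_num)
    linarith
  have hwP : w ≤ 1 / (P : ℝ) := hw4.trans (by
    apply one_div_le_one_div_of_le hP'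
    linarith)
  have hPw : P * w ≤ 1 / 32 := by
    rw [hwdef]
    have : (P : ℝ) * (1 / (32 * (P : ℝ) ^ 3)) = 1 / (32 * (P : ℝ) ^ 2) := by field_simp
    rw [this]
    apply one_div_le_one_div_of_le (by norm_num)
    nlinarith
  refine ⟨y0 P w, contDiff_y0 hw, ?_, ?_, fun a b s hs => few hP hw hw4 hsm a b s hs⟩
  · intro x hx
    rw [deriv_y0 hw]
    have h1 := S_nonneg (P := P) hw x
    have h2 := S_le (P := P) hw x
    have h3 := sum_s1_mem hP hw hwP hx
    obtain ⟨hx0, hx1⟩ := hx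
    push_cast
    constructor
    · unfold y0
      rw [abs_le]
      constructor <;> nlinarith
    · unfold y1
      rw [abs_le]
      constructor <;> linarith [h3.1, h3.2]
  · rw [deriv_y0 hw, deriv_y1]
    refine le_trans ?_ (variation hP hw hwP (by linarith))
    linarith

end Pool.Agent.Results.MP_d93447_an.FewIntersections
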